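import Pool.Agent.Lib.MP_87d05f_lc.ND.Stm3
import Pool.Agent.Lib.MP_87d05f_lc.ND.Q.allA

set_option autoImplicit false

/-!
# Piece allB: search machines for finite families on all graphs, isolated vertices included
-/

namespace Pool.Agent.Lib.MP_87d05f_lc.ND

open Pool.Agent.PolyTime Function Turing

theorem allB_verW (I : List ℕ × List (ℕ × ℕ)) : verW (enV I) = I.1.map Nat.bits := by
  unfold verW enV
  rw [parseW_encW]
  rfl

theorem allB_edgW (I : List ℕ × List (ℕ × ℕ)) :
    edgW (enV I) = I.2.map (fun e => (Nat.bits e.1, Nat.bits e.2)) := by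
  unfold edgW enV
  rw [parseW_encW, List.tail_cons, List.map_map]
  rfl

theorem allB_len (I : List ℕ × List (ℕ × ℕ)) : I.1.length ≤ (enV I).length := by
  unfold enV encW
  rw [List.flatMap_cons, List.length_append, List.length_append]
  have h : ∀ l : List Wd, l.length ≤ (l.flatMap (fun w => w.flatMap (fun x => [true, x]) ++
      [false, false])).length := by
    intro l
    induction l with
    | nil => simp
    | cons w l ih =>
      rw [List.flatMap_cons, List.length_append, List.length_append, List.length_cons]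
      simp only [List.length_cons, List.length_nil]
      omega
  have h1 := h (I.1.map Nat.bits)
  rw [List.length_map] at h1
  exact h1.trans ((Nat.le_add_right _ _).trans (Nat.le_add_right _ _))

theorem allB_card (V : List Wd) (hV : V.Nodup) (a : Wd → Bool) :
    (V.toFinset.filter (fun v => a v = true)).card = (V.filter a).length := by
  rw [← List.toFinset_card_of_nodup (hV.filter _)]
  congr 1
  ext v
  rw [List.mem_toFinset, List.mem_filter, Finset.mem_filter, List.mem_toFinset]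

theorem allB_ded (V : List Wd) (hV : V.Nodup) (a : Wd → Bool) :
    ((ded V).filter a).length = (V.filter a).length := by
  rw [← allB_card V hV, ← List.toFinset_card_of_nodup ((nodup_ded _).filter _)]
  congr 1
  ext v
  rw [List.mem_toFinset, List.mem_filter, mem_ded, Finset.mem_filter, List.mem_toFinset]

theorem allB_le (V : List Wd) (hV : V.Nodup) (S : List Wd) :
    (V.filter (fun v => decide (v ∈ S))).length ≤ S.length := by
  rw [← allB_card V hV]
  refine (Finset.card_le_card (t := S.toFinset) ?_).trans (List.toFinset_card_le S)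
  intro v hv
  rw [Finset.mem_filter] at hv
  rw [List.mem_toFinset]
  simpa using hv.2

theorem r_allB : S_allB := by
  intro hhit hmap henv hbest hsmall hipz hleaf hans htree hpt hptV hsize hQ FL hFL p q b hp hq hb
  obtain ⟨k, hk⟩ : ∃ k, k = 2 + (FL.map (fun H => H.1)).sum := ⟨_, rfl⟩
  have hk2 : 2 ≤ k := by omega
  have hFLk : ∀ H ∈ FL, 1 ≤ H.1 ∧ H.1 ≤ k := by
    intro H hH
    refine ⟨hFL H hH, ?_⟩
    have := List.single_le_sum (l := FL.map (fun H => H.1)) (fun _ _ => Nat.zero_le _) _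
      (List.mem_map.2 ⟨H, hH, rfl⟩)
    omega
  have h4b : 0 < 4 * b := by omega
  obtain ⟨M, T, hM, hT1, hT2, hT3⟩ := exists_TK k (4 * b) hk2 h4b
  obtain ⟨C1, hC1⟩ : ∃ C1, C1 = 1 + k * M ^ (k - 1) := ⟨_, rfl⟩
  have hC1pos : 0 < C1 := by rw [hC1]; omega
  obtain ⟨B, hB⟩ : ∃ B, B = (2 * k + 2) * (4 * b) := ⟨_, rfl⟩
  have hBpos : 0 < B := by rw [hB]; positivity
  obtain ⟨t0, ht0⟩ : ∃ t0, t0 = C1 * B := ⟨_, rfl⟩
  have ht0pos : 1 ≤ t0 := by
    rw [ht0]
    exact Nat.mul_pos hC1pos hBpos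
  obtain ⟨q', hq'⟩ : ∃ q', q' = q * t0 + p + 1 := ⟨_, rfl⟩
  obtain ⟨b', hb'⟩ : ∃ b', b' = C1 * (4 * b) := ⟨_, rfl⟩
  have hb'pos : 0 < b' := by rw [hb']; positivity
  have hlt : p < q' := by omega
  obtain ⟨C, d, tm, e₀, e₁, hS⟩ := hQ k p q' b' hp hlt hb'pos
  obtain ⟨hpt1, hpt2, hpt3, hpt4, hpt5, hpt6⟩ := hpt
  obtain ⟨tm', e₀', e₁', P, κ, h⟩ := dfs_word tm e₀ e₁ (hptV.2.2.1 FL) (hpt2 k M B C d b') hpt5 hpt6
  -- size polynomials
  obtain ⟨P1, hP1⟩ := (hptV.2.2.1 FL).sz_le
  obtain ⟨P2, hP2⟩ := (hpt3 k).sz_le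
  obtain ⟨P3, hP3⟩ := hpt4.sz_le
  obtain ⟨fS, pS, mS, hfS⟩ := hsize k M hk2 hM
  obtain ⟨fE, hfE⟩ : ∃ f : ℕ → ℕ, f = fun L => P1.eval (4 * L + 1) + L := ⟨_, rfl⟩
  have pE : PolyB fE := by
    rw [hfE]
    exact (PolyB.eval P1 (((PolyB.const 4).mul PolyB.id).add (PolyB.const 1))).add PolyB.id
  obtain ⟨fN, hfN⟩ : ∃ f : ℕ → ℕ, f = fun L => fS (fE L) := ⟨_, rfl⟩
  have pN : PolyB fN := by
    rw [hfN]
    exact allA_comp pS pE
  obtain ⟨fQ, hfQ⟩ : ∃ f : ℕ → ℕ, f = fun L => P2.eval (fE L + fN L + 1) := ⟨_, rfl⟩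
  have pQ : PolyB fQ := by
    rw [hfQ]
    exact PolyB.eval P2 ((pE.add pN).add (PolyB.const 1))
  obtain ⟨fA, hfA⟩ : ∃ f : ℕ → ℕ, f = fun L => 2 * ((k + 1) * (C1 * L)) := ⟨_, rfl⟩
  have pA : PolyB fA := by
    rw [hfA]
    exact (PolyB.const 2).mul ((PolyB.const (k + 1)).mul ((PolyB.const C1).mul PolyB.id))
  obtain ⟨fC, hfC⟩ : ∃ f : ℕ → ℕ, f = fun L => P3.eval (fE L + fN L + 4 * fA L + 3) := ⟨_, rfl⟩
  have pC : PolyB fC := by
    rw [hfC]
    exact PolyB.eval P3 (((pE.add pN).add ((PolyB.const 4).mul pA)).add (PolyB.const 3))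
  obtain ⟨fB, hfB⟩ : ∃ f : ℕ → ℕ, f = fun L => fE L + fN L + fA L + fC L := ⟨_, rfl⟩
  have pB : PolyB fB := by
    rw [hfB]
    exact ((pE.add pN).add pA).add pC
  obtain ⟨fD, hfD⟩ : ∃ f : ℕ → ℕ, f = fun L =>
    1 + 3 ^ (k - 1) * M ^ (k - 2) * L + (k + 1) * L := ⟨_, rfl⟩
  have pD : PolyB fD := by
    rw [hfD]
    exact ((PolyB.const 1).add ((PolyB.const (3 ^ (k - 1) * M ^ (k - 2))).mul PolyB.id)).add
      ((PolyB.const (k + 1)).mul PolyB.id)
  obtain ⟨fR, hfR⟩ : ∃ f : ℕ → ℕ, f = fun L => (fQ L + 1) +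
    (C * (fQ L + 1) ^ d + 1) * (L + 1) := ⟨_, rfl⟩
  have pR : PolyB fR := by
    rw [hfR]
    exact (pQ.add (PolyB.const 1)).add ((((PolyB.const C).mul
      ((pQ.add (PolyB.const 1)).pow d)).add (PolyB.const 1)).mul (PolyB.id.add (PolyB.const 1)))
  obtain ⟨C', k', hC'⟩ : PolyB (fun L => P.eval L + 6 * (P.eval (fB L + ((fD L + 1) *
      (fB L + 1) + 6)) + κ * (fR L + 2))) :=
    (PolyB.eval P PolyB.id).add ((PolyB.const 6).mul ((PolyB.eval P (pB.add (((pD.add
      (PolyB.const 1)).mul (pB.add (PolyB.const 1))).add (PolyB.const 6)))).add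
      ((PolyB.const κ).mul (pR.add (PolyB.const 2)))))
  refine ⟨C', k', tm', e₀', e₁', fun I hI => ?_⟩
  -- the instance
  obtain ⟨x, hx⟩ : ∃ x, x = enV I := ⟨_, rfl⟩
  obtain ⟨L, hL⟩ : ∃ L, L = x.length := ⟨_, rfl⟩
  obtain ⟨V, hV⟩ : ∃ V, V = I.1.map Nat.bits := ⟨_, rfl⟩
  obtain ⟨E, hE⟩ : ∃ E, E = I.2.map (fun e => (Nat.bits e.1, Nat.bits e.2)) := ⟨_, rfl⟩
  obtain ⟨e, he⟩ : ∃ e, e = envB FL V E := ⟨_, rfl⟩
  obtain ⟨n, hn⟩ : ∃ n, n = I.1.length := ⟨_, rfl⟩
  have hverW : verW x = V := by rw [hx, hV]; exact allB_verW I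
  have hedW : edgW x = E := by rw [hx, hE]; exact allB_edgW I
  have hi1 : (initB FL x).1 = e := by
    change envB FL (verW x) (edgW x) = e
    rw [hverW, hedW, he]
  have hi2 : (initB FL x).2.1 = none := rfl
  have hi3 : (initB FL x).2.2 = ded V := by
    change ded (verW x) = _
    rw [hverW]
  have he1 : e.1 = V := by rw [he]; rfl
  have he2 : e.2.1 = cpsV FL V E := by rw [he]; rfl
  have hEOk : EOk k e := by rw [he]; exact henv FL k hFLk V E
  have hVnd : V.Nodup := by rw [hV]; exact hI.1.map bits_injective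
  obtain ⟨m4, m5, m6⟩ := hmap ℕ Wd Nat.bits bits_injective I.1 I.2
  rw [← hV, ← hE] at m4
  rw [← hV] at m5
  have hded : (ded e.1).length = n := by
    rw [he1, ded_length, List.toFinset_card_of_nodup hVnd, hn, hV, List.length_map]
  have hnL : n ≤ L := by
    rw [hn, hL, hx]
    exact allB_len I
  obtain ⟨N, hN⟩ : ∃ N, N = mydiv (ded e.1).length B := ⟨_, rfl⟩
  have hNn : N = n / B := by rw [hN, hded, mydiv_eq hBpos]
  have hNL : N ≤ L := by
    rw [hNn]
    exact (Nat.div_le_self _ _).trans hnL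
  obtain ⟨h4, hh4⟩ : ∃ h4, h4 = n / (4 * b) := ⟨_, rfl⟩
  have hh4L : h4 ≤ L := by
    rw [hh4]
    exact (Nat.div_le_self _ _).trans hnL
  have hszx : sz x ≤ 4 * L + 1 := by
    rw [hL]
    exact sz_listBool_le x
  have hszI : sz (initB FL x) ≤ P1.eval (4 * L + 1) := (hP1 x).trans (eval_mono P1 hszx)
  have hszI' : sz (initB FL x).1 + (sz (initB FL x).2.1 + sz (initB FL x).2.2 + 1) + 1 ≤
      P1.eval (4 * L + 1) := hszI
  have hszE : sz e ≤ fE L := by
    rw [hfE, ← hi1]
    change _ ≤ P1.eval (4 * L + 1) + L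
    omega
  have hszβ : sz (ded V) ≤ fE L := by
    rw [hfE, ← hi3]
    change _ ≤ P1.eval (4 * L + 1) + L
    omega
  have hLE : L ≤ fE L := by
    rw [hfE]
    exact Nat.le_add_left _ _
  have hszN : ∀ t, InvA k M e N t → sz t ≤ fN L := by
    intro t ht
    rw [hfN]
    exact hfS e N (fE L) t hEOk ht (hNL.trans hLE) hszE
  -- the number of constraints at the leaves
  have hins : ∀ s, KOk k M e.2.2 s → krc M e.2.2 s k = none → (insA e s).length ≤ C1 * n := by
    intro s hs hr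
    have h1 := (hleaf k M e s hk2 hM hEOk hs hr).1
    rw [hded, ← hC1] at h1
    unfold insA
    rw [List.length_map]
    exact h1
  -- the answers
  have hanswer : ∀ s, KOk k M e.2.2 s → krc M e.2.2 s k = none →
      (ansWT tm e₀ e₁ (qryA k C d b' e s)).length ≤ fA L ∧
      hitsA e.2.1 (candA e (some (Sum.inl s)) (ansWT tm e₀ e₁ (qryA k C d b' e s))) = true ∧
      ∀ a : Wd → Bool, (∀ S ∈ s, ∃ l ∈ S, tr a l) → (∀ t ∈ e.2.1, ∃ w ∈ t, a w = true) →
        q' * (candA e (some (Sum.inl s)) (ansWT tm e₀ e₁ (qryA k C d b' e s))).length ≤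
          q' * ((ded e.1).filter a).length + p * (insA e s).length := by
    intro s hs hr
    obtain ⟨F, F1, F2, F3⟩ := hans k M p q' e s hk2 hM hp hlt hEOk hs hr
    obtain ⟨w, hw, hrun⟩ := hS F trivial
    have h1 : ansWT tm e₀ e₁ (qryA k C d b' e s) = w := by
      refine ansWT_of_outputs tm e₀ e₁ w _ ?_
      unfold qryA
      simp only
      rw [← F1, ← F2, mydiv_eq hb'pos]
      exact hrun
    rw [h1]
    obtain ⟨g1, g2, g3⟩ := F3 w hw
    refine ⟨?_, g2, g3⟩
    refine g1.trans ?_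
    rw [hfA]
    have h2 := (hins s hs hr).trans (Nat.mul_le_mul_left C1 hnL)
    exact Nat.mul_le_mul_left _ (Nat.mul_le_mul_left _ h2)
  -- the cost of the queries
  have hcost : ∀ s, KOk k M e.2.2 s → krc M e.2.2 s k = none →
      qcost (qryA k C d b' e s) ≤ fR L * 2 ^ h4 := by
    intro s hs hr
    have g1 : sz (e, s) ≤ fE L + fN L + 1 := by
      have g0 := hszN (some (Sum.inl s)) hs
      rw [sz_some, sz_inl] at g0
      rw [sz_pair]
      omega
    have g3 : (encW ((insA e s).map (conW k))).length ≤ fQ L := by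
      have e1 := length_le_sz (encW ((insA e s).map (conW k)))
      have e2 := (hP2 (e, s)).trans (eval_mono P2 g1)
      rw [hfQ]
      change _ ≤ P2.eval (fE L + fN L + 1)
      simp only at e2
      omega
    have g4 : mydiv (insA e s).length b' ≤ h4 := by
      rw [mydiv_eq hb'pos, hh4]
      refine (Nat.div_le_div_right (hins s hs hr)).trans ?_
      rw [hb', Nat.mul_div_mul_left _ _ hC1pos]
    unfold qcost qryA
    simp only
    rw [hfR]
    change (encW ((insA e s).map (conW k))).length + 1 +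
      (C * ((encW ((insA e s).map (conW k))).length + 1) ^ d + 1) *
      (2 ^ mydiv (insA e s).length b' * (mydiv (insA e s).length b' + 1)) ≤
      ((fQ L + 1) + (C * (fQ L + 1) ^ d + 1) * (L + 1)) * 2 ^ h4
    have g5 : C * ((encW ((insA e s).map (conW k))).length + 1) ^ d + 1 ≤
        C * (fQ L + 1) ^ d + 1 :=
      Nat.add_le_add_right (Nat.mul_le_mul_left _ (Nat.pow_le_pow_left (by omega) _)) 1
    have g6 : 2 ^ mydiv (insA e s).length b' ≤ 2 ^ h4 := Nat.pow_le_pow_right (by norm_num) g4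
    have g7 : 2 ^ mydiv (insA e s).length b' * (mydiv (insA e s).length b' + 1) ≤
        2 ^ h4 * (L + 1) := Nat.mul_le_mul g6 (by omega)
    have g8 := Nat.mul_le_mul g5 g7
    have g9 : (fQ L + 1) * 1 ≤ (fQ L + 1) * 2 ^ h4 := Nat.mul_le_mul_left _ Nat.one_le_two_pow
    have g10 : ((fQ L + 1) + (C * (fQ L + 1) ^ d + 1) * (L + 1)) * 2 ^ h4 =
        (fQ L + 1) * 2 ^ h4 + (C * (fQ L + 1) ^ d + 1) * (2 ^ h4 * (L + 1)) := by ring
    rw [g10]
    omega
  have hcost0 : qcost (([], (0, 0)) : Qry) ≤ fR L * 2 ^ h4 := by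
    have g1 : qcost (([], (0, 0)) : Qry) = 2 := rfl
    have g2 : 2 ≤ fR L := by
      rw [hfR]
      change 2 ≤ (fQ L + 1) + (C * (fQ L + 1) ^ d + 1) * (L + 1)
      have : 1 ≤ (C * (fQ L + 1) ^ d + 1) * (L + 1) := Nat.mul_pos (by omega) (by omega)
      omega
    rw [g1]
    exact g2.trans (Nat.le_mul_of_pos_right _ (by positivity))
  -- the accumulators
  have hupd : ∀ (t : NdA) (w : List Bool), InvA k M e N t → w.length ≤ fA L →
      ∀ β : List Wd, sz β ≤ fB L → sz (updA e t w β) ≤ fB L := by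
    intro t w ht hw β hβ
    unfold updA
    rcases hc : (decide ((candA e t w).length < β.length) && hitsA e.2.1 (candA e t w)) with _ | _
    · exact hβ
    · have g1 : sz ((e, t), w) ≤ fE L + fN L + 4 * fA L + 3 := by
        have g2 := hszN t ht
        have g3 := sz_listBool_le w
        rw [sz_pair, sz_pair]
        omega
      have g4 := (hP3 ((e, t), w)).trans (eval_mono P3 g1)
      rw [hfB]
      change sz (candA e t w) ≤ fE L + fN L + fA L + fC L
      have g5 : sz (candA e t w) ≤ fC L := by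
        rw [hfC]
        exact g4
      omega
  obtain ⟨htr1, htr2⟩ := htree k M B C d b' T hk2 hM hT1 hT2 e N hEOk hN
  have hpot : KPot k M e.2.2 [] ≤ 3 ^ (k - 1) * M ^ (k - 2) * n := by
    unfold KPot
    refine (Nat.sub_le _ _).trans ?_
    refine Nat.mul_le_mul_left _ ?_
    rw [← hded]
    exact hEOk.num
  have hdep : DpA k M e N none ≤ fD L := by
    change 1 + KPot k M e.2.2 [] + (k + 1) * N ≤ fD L
    rw [hfD]
    change _ ≤ 1 + 3 ^ (k - 1) * M ^ (k - 2) * L + (k + 1) * L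
    have g1 := Nat.mul_le_mul_left (3 ^ (k - 1) * M ^ (k - 2)) hnL
    have g2 := Nat.mul_le_mul_left (k + 1) hNL
    omega
  have hwt : WtA T k M e N none ≤ 6 * 2 ^ h4 := by
    change 1 + T (KPot k M e.2.2 []) + (2 * k + 2) ^ N ≤ 6 * 2 ^ h4
    have g1 : T (KPot k M e.2.2 []) ≤ 4 * 2 ^ h4 := by
      rw [hh4]
      refine hT3 n _ (hpot.trans ?_)
      refine Nat.mul_le_mul_right _ ?_
      rw [Nat.mul_assoc 2]
      omega
    have g2 : (2 * k + 2) ^ N ≤ 2 ^ h4 := by
      rw [hNn, hB, hh4]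
      exact allA_pow k n (4 * b) h4b
    have g3 : 1 ≤ 2 ^ h4 := Nat.one_le_two_pow
    omega
  have htime : P.eval x.length + WtA T k M e N none * (P.eval (fB L +
      ((DpA k M e N none + 1) * (fB L + 1) + 6)) + κ * (fR L * 2 ^ h4 + 2)) ≤
      C' * (x.length + 1) ^ k' * 2 ^ (n / b) := by
    rw [← hL]
    have t3 : P.eval (fB L + ((DpA k M e N none + 1) * (fB L + 1) + 6)) ≤
        P.eval (fB L + ((fD L + 1) * (fB L + 1) + 6)) := by
      refine eval_mono P ?_
      have := Nat.mul_le_mul_right (fB L + 1) (Nat.add_le_add_right hdep 1)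
      omega
    have t4 := allA_time (PL := P.eval L) (Pe := P.eval (fB L + ((fD L + 1) * (fB L + 1) + 6)))
      (κ := κ) (R := fR L * 2 ^ h4) (fR := fR L) hwt le_rfl Nat.one_le_two_pow
    have t5 : 2 ^ h4 * 2 ^ h4 ≤ 2 ^ (n / b) := by
      rw [hh4]
      exact allA_exp n b hb
    have t6 := Nat.mul_le_mul (hC' L) t5
    refine le_trans ?_ t6
    refine le_trans ?_ t4
    exact Nat.add_le_add_left (Nat.mul_le_mul_left _ (Nat.add_le_add_right t3 _)) _
  have hmain := h x (InvA k M e N) (fun β => sz β ≤ fB L) (DpA k M e N) (WtA T k M e N)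
    (fB L) (fR L * 2 ^ h4) (by
      intro s hs
      rw [hi1]
      rcases htr2 s hs with ⟨s', rfl, g1, g2, g3⟩ | ⟨⟨s', rfl⟩, g3⟩ | ⟨l, r, g1, g2, g3, g4, g5, g6⟩
      · obtain ⟨a1, _, _⟩ := hanswer s' g1 g2
        refine Or.inl ⟨_, g3, hcost s' g1 g2, a1.trans ?_, ?_⟩
        · rw [hfB]
          change fA L ≤ fE L + fN L + fA L + fC L
          omega
        · exact fun β hβ => hupd _ _ hs a1 β hβ
      · refine Or.inl ⟨_, g3, hcost0, ?_, ?_⟩
        · rw [allA_triv]
          exact Nat.zero_le _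
        · refine fun β hβ => hupd _ _ hs ?_ β hβ
          rw [allA_triv]
          exact Nat.zero_le _
      · exact Or.inr ⟨l, r, g1, g2, g3, g4, g5, g6⟩)
    htr1 (by rw [hi2]; trivial) (by
      rw [hi3, hfB]
      change sz (ded V) ≤ fE L + fN L + fA L + fC L
      omega)
    (fun s hs => by
      have := hszN s hs
      rw [hfB]
      change sz s ≤ fE L + fN L + fA L + fC L
      omega) (fun β hβ => hβ) (by
      rw [hi1, hfB]
      change sz e ≤ fE L + fN L + fA L + fC L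
      omega)
    (C' * (x.length + 1) ^ k' * 2 ^ (n / b)) (by rw [hi2]; exact htime)
  rw [hi1, hi2, hi3] at hmain
  obtain ⟨S, hdfs, hrun⟩ := hmain
  have hout : outA (e, S) = I.1.map (fun v => decide (Nat.bits v ∈ S)) := by
    unfold outA
    rw [he1, hV, List.map_map]
    rfl
  rw [hout] at hrun
  obtain ⟨b1, b2, b3⟩ := hbest e _ _ _ _ _ hdfs
  have hhit0 : hitsA e.2.1 (ded V) = true := by
    rw [allA_hits]
    intro t ht
    obtain ⟨g1, _, g2⟩ := hEOk.len t ht
    obtain ⟨w, hw⟩ := List.exists_mem_of_length_pos g1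
    refine ⟨w, hw, decide_eq_true ?_⟩
    rw [mem_ded, ← he1]
    exact g2 w hw
  have hSol : SolV {H | H ∈ FL} V E (fun v => decide (v ∈ S)) := by
    refine (hhit Wd FL V E _).2 ?_
    have := b1 hhit0
    rw [allA_hits, he2] at this
    exact this
  rw [← hx]
  refine ⟨_, ⟨fun v => decide (Nat.bits v ∈ S), rfl, (m4 _ _).1 hSol, ?_⟩, by
    rw [hn] at hrun
    exact hrun⟩
  intro a' ha'
  obtain ⟨a2, ha2⟩ := m6 a'
  have h1 : SolV {H | H ∈ FL} V E a2 := by
    refine (m4 _ _).2 ?_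
    rw [ha2]
    exact ha'
  have h2 : ∀ t ∈ e.2.1, ∃ w ∈ t, a2 w = true := by
    rw [he2]
    exact (hhit Wd FL V E a2).1 h1
  have e1 : (V.filter (fun v => decide (v ∈ S))).length =
      (I.1.filter (fun v => decide (Nat.bits v ∈ S))).length := m5 _
  have e2 : (V.filter a2).length = (I.1.filter a').length := by
    have := m5 a2
    rw [ha2] at this
    exact this
  have hle : (I.1.filter (fun v => decide (Nat.bits v ∈ S))).length ≤ S.length := by
    rw [← e1]
    exact allB_le V hVnd S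
  obtain ⟨τ, hτ⟩ : ∃ τ, τ = (I.1.filter a').length := ⟨_, rfl⟩
  have hroot : expA k M B C d b' e none = Sum.inr (some (Sum.inl []),
      some (Sum.inr ([], (none, N)))) := by
    rw [hN]
    rfl
  have hgoal : q * S.length ≤ q * τ + p * τ := by
    rcases Nat.lt_or_ge N τ with hlt' | hge
    · obtain ⟨s, r1, r2, r3, r4⟩ := hipz k M B C d b' e hk2 hM hEOk a2 h2
      obtain ⟨_, a1, a3⟩ := hanswer s r3 r2
      have r5 : expA k M B C d b' e (some (Sum.inl s)) = Sum.inl (qryA k C d b' e s) := by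
        unfold expA
        simp only [Sum.elim_inl]
        rw [r2]
      have r6 := b3 _ _ (Rch.left hroot r1) r5 a1
      have r7 := a3 a2 r4 h2
      rw [he1, allB_ded V hVnd, e2, ← hτ] at r7
      have r8 := hins s r3 r2
      have r9 : n < B * (N + 1) := by
        rw [hNn]
        have := Nat.div_add_mod n B
        have := Nat.mod_lt n hBpos
        rw [Nat.mul_add]
        omega
      have r10 : n ≤ B * τ := r9.le.trans (Nat.mul_le_mul_left _ hlt')
      refine any_arith ht0pos ?_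
      rw [← hq', ht0]
      calc q' * S.length ≤ q' * (candA e (some (Sum.inl s))
            (ansWT tm e₀ e₁ (qryA k C d b' e s))).length := Nat.mul_le_mul_left _ r6
        _ ≤ q' * τ + p * (insA e s).length := r7
        _ ≤ q' * τ + p * (C1 * (B * τ)) := Nat.add_le_add_left (Nat.mul_le_mul_left _
            (r8.trans (Nat.mul_le_mul_left _ r10))) _
        _ = q' * τ + p * (C1 * B) * τ := by ring
    · obtain ⟨u, r1, r2, r3, r4⟩ := hsmall k M B C d b' e
        (V.toFinset.filter (fun v => a2 v = true)) N (by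
          rw [allB_card V hVnd, e2, ← hτ]
          exact hge) (by
          intro t ht
          obtain ⟨w, hw, hw'⟩ := h2 t ht
          refine ⟨w, hw, Finset.mem_filter.2 ⟨?_, hw'⟩⟩
          rw [List.mem_toFinset, ← he1]
          exact (hEOk.len t ht).2.2 w hw)
      have r5 := b3 _ _ (Rch.right hroot r1) r2 r3
      have r6 : S.length ≤ τ := by
        rw [hτ, ← e2, ← allB_card V hVnd]
        exact r5.trans r4
      exact (Nat.mul_le_mul_left _ r6).trans (Nat.le_add_right _ _)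
  have hq0 : (0 : ℚ) < (q : ℚ) := by exact_mod_cast hq
  have h4' : (q : ℚ) * (((I.1.filter (fun v => decide (Nat.bits v ∈ S))).length : ℕ) : ℚ) ≤
      (q : ℚ) * ((1 + (p : ℚ) / (q : ℚ)) * (((I.1.filter a').length : ℕ) : ℚ)) := by
    have h5 : (q : ℚ) * ((1 + (p : ℚ) / (q : ℚ)) * (((I.1.filter a').length : ℕ) : ℚ)) =
        q * (((I.1.filter a').length : ℕ) : ℚ) + p * (((I.1.filter a').length : ℕ) : ℚ) := by
      field_simp
    rw [h5, ← hτ]
    have h6 := (Nat.mul_le_mul_left q hle).trans hgoal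
    exact_mod_cast h6
  exact le_of_mul_le_mul_left h4' hq0

end Pool.Agent.Lib.MP_87d05f_lc.ND
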