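import Pool.Agent.Lib.MP_87d05f_lc.ND.Stm3
import Pool.Agent.Lib.MP_87d05f_lc.ND.P.copy

set_option autoImplicit false

/-!
# Piece copB: description of the list of copies, with an explicit list of vertices
-/

namespace Pool.Agent.Lib.MP_87d05f_lc.ND

open Pool.Agent.PolyTime Function Turing

theorem r_copB : S_copB := by
  intro T _ _ H V E t
  unfold copV
  rw [List.mem_filter, copy_mem_tup]
  constructor
  · rintro ⟨⟨hl, hm⟩, hc⟩
    obtain ⟨f, rfl⟩ : ∃ f : Fin H.1 → T, t = List.ofFn f := by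
      refine ⟨fun i => t.get (i.cast hl.symm), ?_⟩
      apply List.ext_getElem
      · simp [hl]
      · intro n h1 h2
        simp
    rw [copy_isCopy] at hc
    exact ⟨f, hc.1, fun i => hm (f i) (by rw [List.mem_ofFn]; exact ⟨i, rfl⟩), hc.2, rfl⟩
  · rintro ⟨f, h1, h2, h3, rfl⟩
    refine ⟨⟨by simp, ?_⟩, ?_⟩
    · intro x hx
      rw [List.mem_ofFn] at hx
      obtain ⟨i, rfl⟩ := hx
      exact h2 i
    · rw [copy_isCopy]
      exact ⟨h1, h3⟩

end Pool.Agent.Lib.MP_87d05f_lc.ND
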