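import Pool.Agent.Lib.MP_87d05f_lc.ND.Stm3

set_option autoImplicit false

/-!
Project ND, part 3, piece cplB (complement graphs), helper18.
-/

namespace Pool.Agent.Lib.MP_87d05f_lc.ND

open Pool.Agent.PolyTime Function Turing

section

variable {T : Type} [DecidableEq T]

theorem cplB3_mem_cons (v : T) (V : List T) (E : List (T × T)) (e : T × T) :
    e ∈ cplE (v :: V) E ↔
      (e.1 = v ∧ e.2 ∈ V ∧ ¬ ((e.1, e.2) ∈ E ∨ (e.2, e.1) ∈ E)) ∨ e ∈ cplE V E := by
  simp only [cplE, List.mem_append, List.mem_map, List.mem_filter]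
  constructor
  · rintro (⟨w, ⟨hw, h⟩, rfl⟩ | h)
    · left
      refine ⟨rfl, hw, ?_⟩
      simpa using h
    · exact Or.inr h
  · rintro (⟨h1, h2, h3⟩ | h)
    · left
      refine ⟨e.2, ⟨h2, ?_⟩, ?_⟩
      · rw [h1] at h3
        simpa using h3
      · rw [← h1]
    · exact Or.inr h

theorem cplB3_basic (E : List (T × T)) : ∀ V : List T, V.Nodup → ∀ e ∈ cplE V E,
    (e.1 ≠ e.2 ∧ e.1 ∈ V ∧ e.2 ∈ V) ∧ ¬ ((e.1, e.2) ∈ E ∨ (e.2, e.1) ∈ E)
  | [], _, e, he => by simp [cplE] at he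
  | v :: V, hV, e, he => by
    rw [List.nodup_cons] at hV
    rcases (cplB3_mem_cons v V E e).mp he with ⟨h1, h2, h3⟩ | h
    · refine ⟨⟨?_, ?_, ?_⟩, h3⟩
      · intro hh
        rw [← hh, h1] at h2
        exact hV.1 h2
      · rw [h1]
        exact List.mem_cons_self
      · exact List.mem_cons_of_mem _ h2
    · obtain ⟨⟨a1, a2, a3⟩, a4⟩ := cplB3_basic E V hV.2 e h
      exact ⟨⟨a1, List.mem_cons_of_mem _ a2, List.mem_cons_of_mem _ a3⟩, a4⟩

theorem cplB3_all (E : List (T × T)) : ∀ V : List T, V.Nodup → ∀ u ∈ V, ∀ v ∈ V, u ≠ v →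
    ¬ ((u, v) ∈ E ∨ (v, u) ∈ E) → (u, v) ∈ cplE V E ∨ (v, u) ∈ cplE V E
  | [], _, u, hu, _, _, _, _ => by simp at hu
  | x :: V, hV, u, hu, v, hv, huv, hn => by
    rw [List.nodup_cons] at hV
    rw [cplB3_mem_cons, cplB3_mem_cons]
    rcases List.mem_cons.mp hu with hu1 | hu1
    · rcases List.mem_cons.mp hv with hv1 | hv1
      · exact absurd (hu1.trans hv1.symm) huv
      · exact Or.inl (Or.inl ⟨hu1, hv1, hn⟩)
    · rcases List.mem_cons.mp hv with hv1 | hv1
      · exact Or.inr (Or.inl ⟨hv1, hu1, fun h => hn h.symm⟩)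
      · rcases cplB3_all E V hV.2 u hu1 v hv1 huv hn with h | h
        · exact Or.inl (Or.inr h)
        · exact Or.inr (Or.inr h)

theorem cplB3_pw (E : List (T × T)) : ∀ V : List T, V.Nodup →
    (cplE V E).Pairwise (fun e f => e ≠ f ∧ e ≠ (f.2, f.1))
  | [], _ => by simp [cplE]
  | v :: V, hV => by
    rw [List.nodup_cons] at hV
    simp only [cplE]
    rw [List.pairwise_append]
    refine ⟨?_, cplB3_pw E V hV.2, ?_⟩
    · rw [List.pairwise_map]
      have hnd : (V.filter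
          (fun w => !(decide ((v, w) ∈ E) || decide ((w, v) ∈ E)))).Nodup := hV.2.filter _
      have hmem : ∀ w ∈ V.filter (fun w => !(decide ((v, w) ∈ E) || decide ((w, v) ∈ E))),
          w ∈ V := fun w hw => (List.mem_filter.mp hw).1
      refine List.Pairwise.imp_of_mem ?_ hnd
      intro a b ha hb hab
      constructor
      · intro h
        exact hab (Prod.mk.inj h).2
      · intro h
        have h1 : v = b := (Prod.mk.inj h).1
        exact hV.1 (h1 ▸ hmem b hb)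
    · intro e he f hf
      obtain ⟨w, hw, rfl⟩ := List.mem_map.mp he
      obtain ⟨⟨-, a2, a3⟩, -⟩ := cplB3_basic E V hV.2 f hf
      constructor
      · intro h
        apply hV.1
        rw [← h] at a2
        exact a2
      · intro h
        apply hV.1
        have h1 : v = f.2 := (Prod.mk.inj h).1
        rw [h1]
        exact a3

theorem cplB3_adj (V : List T) (hV : V.Nodup) (E : List (T × T)) (u : T) (hu : u ∈ V) (v : T)
    (hv : v ∈ V) : ((u, v) ∈ cplE V E ∨ (v, u) ∈ cplE V E) ↔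
      (u ≠ v ∧ ¬ ((u, v) ∈ E ∨ (v, u) ∈ E)) := by
  constructor
  · rintro (h | h)
    · obtain ⟨⟨a1, -, -⟩, a4⟩ := cplB3_basic E V hV _ h
      exact ⟨a1, a4⟩
    · obtain ⟨⟨a1, -, -⟩, a4⟩ := cplB3_basic E V hV _ h
      exact ⟨fun hh => a1 hh.symm, fun hh => a4 hh.symm⟩
  · rintro ⟨h1, h2⟩
    exact cplB3_all E V hV u hu v hv h1 h2

theorem cplB3_has (V : List T) (hV : V.Nodup) (E : List (T × T)) (hE : ∀ e ∈ E, e.1 ≠ e.2)
    (a : T → Bool) (H : FG) : HasV V (cplE V E) a ⟨H.1, H.2ᶜ⟩ ↔ HasV V E a H := by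
  unfold HasV
  refine exists_congr fun f => and_congr_right fun hf => and_congr_right fun hfV => ?_
  have key : ∀ i j, ((f i, f j) ∈ cplE V E ∨ (f j, f i) ∈ cplE V E) ↔
      (i ≠ j ∧ ¬ ((f i, f j) ∈ E ∨ (f j, f i) ∈ E)) := by
    intro i j
    rw [cplB3_adj V hV E (f i) (hfV i).1 (f j) (hfV j).1, hf.ne_iff]
  constructor
  · intro h i j
    by_cases hij : i = j
    · subst hij
      constructor
      · intro h1
        exact absurd h1 (SimpleGraph.irrefl _)
      · rintro (h1 | h1)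
        · exact absurd rfl (hE _ h1)
        · exact absurd rfl (hE _ h1)
    · have h1 := (h i j).trans (key i j)
      have h2 : H.2ᶜ.Adj i j ↔ ¬ H.2.Adj i j := by
        rw [SimpleGraph.compl_adj]
        exact and_iff_right hij
      have h3 : (i ≠ j ∧ ¬ ((f i, f j) ∈ E ∨ (f j, f i) ∈ E)) ↔
          ¬ ((f i, f j) ∈ E ∨ (f j, f i) ∈ E) := and_iff_right hij
      exact not_iff_not.mp (h2.symm.trans (h1.trans h3))
  · intro h i j
    have h2 : H.2ᶜ.Adj i j ↔ (i ≠ j ∧ ¬ H.2.Adj i j) := SimpleGraph.compl_adj _ _ _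
    refine h2.trans (Iff.trans ?_ (key i j).symm)
    rw [h i j]

end

theorem r_cplB : S_cplB := by
  intro T _ V E hV
  refine ⟨fun e he => (cplB3_basic E V hV e he).1, cplB3_pw E V hV,
    fun u hu v hv => cplB3_adj V hV E u hu v hv, ?_⟩
  intro FF a hE
  constructor
  · intro h H hH hh
    exact h _ hH ((cplB3_has V hV E hE a H).mpr hh)
  · intro h H hH hh
    have hcc : (⟨H.1, H.2ᶜᶜ⟩ : FG) = H := by
      rw [compl_compl]
    have hH' : (⟨H.1, H.2ᶜ⟩ : FG) ∈ cFF FF := by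
      change (⟨H.1, H.2ᶜᶜ⟩ : FG) ∈ FF
      rw [hcc]
      exact hH
    apply h _ hH'
    have h1 := cplB3_has V hV E hE a ⟨H.1, H.2ᶜ⟩
    apply h1.mp
    change HasV V (cplE V E) a ⟨H.1, H.2ᶜᶜ⟩
    rw [hcc]
    exact hh

end Pool.Agent.Lib.MP_87d05f_lc.ND
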