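import Pool.Agent.Lib.MP_87d05f_lc.ND.Stm3

set_option autoImplicit false

/-!
# envB: the environment of a graph (vertices and edges given) is good
-/

namespace Pool.Agent.Lib.MP_87d05f_lc.ND

open Pool.Agent.PolyTime Function Turing

/-- the copies: length and members -/
theorem envB3_cps (hcopy : R_copB) (FL : List FG) (k : ℕ) (h : ∀ H ∈ FL, 1 ≤ H.1 ∧ H.1 ≤ k)
    (V : List Wd) (E : List (Wd × Wd)) (t : List Wd) (ht : t ∈ cpsV FL V E) :
    1 ≤ t.length ∧ t.length ≤ k ∧ ∀ w ∈ t, w ∈ V := by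
  rw [cpsV, List.mem_flatMap] at ht
  obtain ⟨H, hH, ht⟩ := ht
  obtain ⟨f, _, hf, _, rfl⟩ := (hcopy Wd H V E t).mp ht
  rw [List.length_ofFn]
  refine ⟨(h H hH).1, (h H hH).2, ?_⟩
  intro w hw
  rw [List.mem_ofFn] at hw
  obtain ⟨i, rfl⟩ := hw
  exact hf i

theorem r_envB : S_envB := by
  intro hcopy FL k h V E
  have hc := envB3_cps hcopy FL k h V E
  set K : List (List Wd) := cpsV FL V E with hK
  set cl : List (List (Lit Wd)) := K.map (fun t => t.map (fun w => (true, w))) with hcl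
  have he : envB FL V E = (V, (K, mkK cl)) := rfl
  have hlit : ∀ l : Lit Wd, l ∈ cl.flatten → l.1 = true ∧ l.2 ∈ V := by
    intro l hl
    obtain ⟨c, hcc, hlc⟩ := List.mem_flatten.1 hl
    obtain ⟨t, ht, rfl⟩ := List.mem_map.1 hcc
    obtain ⟨w, hw, rfl⟩ := List.mem_map.1 hlc
    exact ⟨rfl, (hc t ht).2.2 w hw⟩
  rw [he]
  refine ⟨?_, ?_, ?_, ?_, ?_, ?_⟩
  · refine mkK_wf ?_ ?_
    · intro c hcc
      obtain ⟨t, ht, rfl⟩ := List.mem_map.1 hcc
      rw [List.length_map]
      exact (hc t ht).2.1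
    · intro h0
      obtain ⟨c, hcc, hc0⟩ := List.mem_map.1 h0
      obtain ⟨t, ht, rfl⟩ := List.mem_map.1 hcc
      obtain ⟨w, hw⟩ := List.exists_mem_of_length_pos (hc t ht).1
      have hm : ((true, w) : Lit Wd) ∈ t.map (fun w => ((true, w) : Lit Wd)) :=
        List.mem_map.2 ⟨w, hw, rfl⟩
      have := (mem_can_of hcc).2 hm
      rw [hc0] at this
      exact absurd this List.not_mem_nil
  · show (ded cl.flatten).length ≤ (ded V).length
    have h1 : ((ded cl.flatten).map (fun l => l.2)).length ≤ (ded V).length := by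
      refine nodup_length_le ?_ ?_
      · refine (List.nodup_map_iff_inj_on (nodup_ded _)).2 ?_
        intro x hx y hy hxy
        have hx1 := (hlit x (mem_ded.1 hx)).1
        have hy1 := (hlit y (mem_ded.1 hy)).1
        exact Prod.ext (hx1.trans hy1.symm) hxy
      · intro w hw
        obtain ⟨l, hl, rfl⟩ := List.mem_map.1 hw
        exact mem_ded.2 (hlit l (mem_ded.1 hl)).2
    rwa [List.length_map] at h1
  · intro l hl
    exact hlit l (mem_ded.1 hl)
  · intro t ht
    exact hc t ht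
  · intro t ht
    have hcc : t.map (fun w => ((true, w) : Lit Wd)) ∈ cl := List.mem_map.2 ⟨t, ht, rfl⟩
    refine ⟨can (ded cl.flatten) (t.map (fun w => ((true, w) : Lit Wd))),
      List.mem_map.2 ⟨_, hcc, rfl⟩, ?_⟩
    intro l hl
    obtain ⟨w, hw, rfl⟩ := List.mem_map.1 ((mem_can_of hcc).1 hl)
    exact hw
  · intro a ha
    refine mkK_sat ?_
    intro c hcc
    obtain ⟨t, ht, rfl⟩ := List.mem_map.1 hcc
    obtain ⟨w, hw, haw⟩ := ha t ht
    refine ⟨(true, w), List.mem_map.2 ⟨w, hw, rfl⟩, ?_⟩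
    unfold tr
    exact haw

end Pool.Agent.Lib.MP_87d05f_lc.ND
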