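import Pool.Agent.Lib.MP_87d05f_lc.ND.Stm3

set_option autoImplicit false

/-!
# Vertex deletion problems on all graphs, piece mapB: renaming of vertices by an injective map
-/

namespace Pool.Agent.Lib.MP_87d05f_lc.ND

open Function

private theorem mapB3_mem {T T' : Type} (f : T → T') (hf : Injective f) (E : List (T × T))
    (x y : T) : (f x, f y) ∈ E.map (fun e => (f e.1, f e.2)) ↔ (x, y) ∈ E := by
  rw [List.mem_map]
  constructor
  · rintro ⟨⟨u, v⟩, h, he⟩
    have h1 : f u = f x := congrArg Prod.fst he
    have h2 : f v = f y := congrArg Prod.snd he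
    rw [hf h1, hf h2] at h
    exact h
  · intro h
    exact ⟨(x, y), h, rfl⟩

private theorem mapB3_has {T T' : Type} (f : T → T') (hf : Injective f) (V : List T)
    (E : List (T × T)) (a : T' → Bool) (H : FG) :
    HasV (V.map f) (E.map (fun e => (f e.1, f e.2))) a H ↔ HasV V E (fun v => a (f v)) H := by
  constructor
  · rintro ⟨φ, hφ, h1, h2⟩
    have h3 : ∀ i, ∃ t, t ∈ V ∧ f t = φ i := by
      intro i
      have := (h1 i).1
      rw [List.mem_map] at this
      exact this
    choose ψ h4 h5 using h3
    refine ⟨ψ, ?_, ?_, ?_⟩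
    · intro i j hij
      apply hφ
      rw [← h5, ← h5, hij]
    · intro i
      refine ⟨h4 i, ?_⟩
      show a (f (ψ i)) = false
      rw [h5]
      exact (h1 i).2
    · intro i j
      rw [h2, ← h5 i, ← h5 j, mapB3_mem f hf, mapB3_mem f hf]
  · rintro ⟨ψ, hψ, h1, h2⟩
    refine ⟨fun i => f (ψ i), hf.comp hψ, ?_, ?_⟩
    · intro i
      exact ⟨List.mem_map_of_mem (h1 i).1, (h1 i).2⟩
    · intro i j
      rw [mapB3_mem f hf, mapB3_mem f hf]
      exact h2 i j

theorem r_mapB : S_mapB := by
  intro T T' _ _ f hf V E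
  refine ⟨?_, ?_, ?_⟩
  · intro FF a
    unfold SolV
    constructor
    · intro h H hH hc
      exact h H hH ((mapB3_has f hf V E a H).2 hc)
    · intro h H hH hc
      exact h H hH ((mapB3_has f hf V E a H).1 hc)
  · intro a
    rw [List.filter_map, List.length_map]
    rfl
  · intro a
    refine ⟨Function.extend f a (fun _ => false), ?_⟩
    funext v
    exact hf.extend_apply a _ v

end Pool.Agent.Lib.MP_87d05f_lc.ND
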