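import Pool.Agent.Lib.MP_87d05f_lc.ND.Stm3
import Pool.Agent.Lib.MP_87d05f_lc.ND.P.ptC
import Pool.Agent.Lib.MP_87d05f_lc.ND.P.ptI
import Pool.Agent.Lib.MP_87d05f_lc.ND.P.ptO
import Pool.Agent.Lib.MP_87d05f_lc.ND.Q.ptE

set_option autoImplicit false

/-!
Piece ptV: the vertices, the edges, the initial state and the complement are computable in
polynomial time.
-/

namespace Pool.Agent.Lib.MP_87d05f_lc.ND

open Pool.Agent.PolyTime Function Turing

theorem ptV3_verW : PTime verW :=
  PTime.headD parseW_ptime (PTime.const [])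

theorem ptV3_edgW : PTime edgW :=
  PTime.map (l := fun x : List Bool => (parseW x).tail)
    (f := fun (_ : List Bool) (c : List (List Bool)) =>
      ((c.headD [], c.tail.headD []) : Wd × Wd))
    (PTime.tail parseW_ptime)
    ((PTime.headD PTime.snd (PTime.const [])).pair
      (PTime.headD (PTime.tail PTime.snd) (PTime.const [])))

theorem ptV3_copV (H : FG) :
    PTime (fun p : List Wd × List (Wd × Wd) => copV H p.1 p.2) := by
  have h1 : PTime (fun p : List Wd × List (Wd × Wd) => tup p.1 H.1) :=
    (ptC_tup H.1).comp PTime.fst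
  exact PTime.filter (l := fun p : List Wd × List (Wd × Wd) => tup p.1 H.1)
    (p := fun (p : List Wd × List (Wd × Wd)) (t : List Wd) => isCopy (patH H) p.2 t) h1
    ((ptC_isCopy (patH H)).comp ((PTime.snd.comp PTime.fst).pair PTime.snd))

theorem ptV3_cpsV : ∀ G : List FG,
    PTime (fun p : List Wd × List (Wd × Wd) => cpsV G p.1 p.2)
  | [] => PTime.const []
  | H :: G => (PTime.append (ptV3_copV H) (ptV3_cpsV G)).of_eq fun _ => rfl

theorem ptV3_envB (FL : List FG) :
    PTime (fun p : List Wd × List (Wd × Wd) => envB FL p.1 p.2) := by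
  have h1 : PTime (fun p : List Wd × List (Wd × Wd) =>
      (cpsV FL p.1 p.2).map (fun t => t.map (fun w => ((true, w) : Lit Wd)))) := by
    refine PTime.map (f := fun _ (t : List Wd) => t.map (fun w => ((true, w) : Lit Wd)))
      (ptV3_cpsV FL) ?_
    exact PTime.map (f := fun _ w => ((true, w) : Lit Wd)) PTime.snd
      (PTime.pair (PTime.const true) PTime.snd)
  exact PTime.pair PTime.fst (PTime.pair (ptV3_cpsV FL) (mkK_ptime h1))

/-- the complement with `List.range` -/
theorem ptV3_cplE_eq {T : Type} [DecidableEq T] [Inhabited T] (E : List (T × T)) :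
    ∀ V : List T, (List.range V.length).flatMap (fun i => ((V.drop (i + 1)).filter
      (fun w => !(decide ((V.getD i default, w) ∈ E) || decide ((w, V.getD i default) ∈ E)))).map
        (fun w => (V.getD i default, w))) = cplE V E
  | [] => rfl
  | v :: V => by
    rw [List.length_cons, List.range_succ_eq_map, List.flatMap_cons, List.flatMap_map, cplE,
      ← ptV3_cplE_eq E V]
    rfl

theorem ptV3_cplE : PTime (fun p : List Wd × List (Wd × Wd) => cplE p.1 p.2) := by
  have hV1 : PTime (fun q : (List Wd × List (Wd × Wd)) × ℕ => q.1.1) :=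
    PTime.fst.comp PTime.fst
  have hx1 : PTime (fun q : (List Wd × List (Wd × Wd)) × ℕ => q.1.1.getD q.2 default) :=
    PTime.getD PTime.snd hV1 (PTime.const default)
  have hd : PTime (fun q : (List Wd × List (Wd × Wd)) × ℕ => q.1.1.drop (q.2 + 1)) :=
    PTime.drop (PTime.succ PTime.snd) hV1
  have hx2 : PTime (fun r : ((List Wd × List (Wd × Wd)) × ℕ) × Wd =>
      r.1.1.1.getD r.1.2 default) := hx1.comp PTime.fst
  have hE2 : PTime (fun r : ((List Wd × List (Wd × Wd)) × ℕ) × Wd => r.1.1.2) :=
    PTime.snd.comp (PTime.fst.comp PTime.fst)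
  have hf : PTime (fun q : (List Wd × List (Wd × Wd)) × ℕ => (q.1.1.drop (q.2 + 1)).filter
      (fun w => !(decide ((q.1.1.getD q.2 default, w) ∈ q.1.2) ||
        decide ((w, q.1.1.getD q.2 default) ∈ q.1.2)))) :=
    PTime.filter (l := fun q : (List Wd × List (Wd × Wd)) × ℕ => q.1.1.drop (q.2 + 1))
      (p := fun (q : (List Wd × List (Wd × Wd)) × ℕ) (w : Wd) =>
        !(decide ((q.1.1.getD q.2 default, w) ∈ q.1.2) ||
          decide ((w, q.1.1.getD q.2 default) ∈ q.1.2))) hd
      (PTime.not (PTime.or (ptC_mem (hx2.pair PTime.snd) hE2)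
        (ptC_mem (PTime.snd.pair hx2) hE2)))
  have hm : PTime (fun q : (List Wd × List (Wd × Wd)) × ℕ => ((q.1.1.drop (q.2 + 1)).filter
      (fun w => !(decide ((q.1.1.getD q.2 default, w) ∈ q.1.2) ||
        decide ((w, q.1.1.getD q.2 default) ∈ q.1.2)))).map
          (fun w => ((q.1.1.getD q.2 default, w) : Wd × Wd))) :=
    PTime.map (f := fun (q : (List Wd × List (Wd × Wd)) × ℕ) (w : Wd) =>
      ((q.1.1.getD q.2 default, w) : Wd × Wd)) hf (hx2.pair PTime.snd)
  refine (PTime.flatMap (l := fun p : List Wd × List (Wd × Wd) => List.range p.1.length)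
    (f := fun (p : List Wd × List (Wd × Wd)) (i : ℕ) => ((p.1.drop (i + 1)).filter
      (fun w => !(decide ((p.1.getD i default, w) ∈ p.2) ||
        decide ((w, p.1.getD i default) ∈ p.2)))).map
          (fun w => ((p.1.getD i default, w) : Wd × Wd)))
    (PTime.range (PTime.length PTime.fst)) hm).of_eq fun p => ?_
  have hdd : ∀ (P : Prop) (i j : Decidable P), @decide P i = @decide P j := fun P i j => by
    rw [Subsingleton.elim i j]
  refine (congrArg (fun f => (List.range p.1.length).flatMap f) (funext fun i => ?_)).trans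
    (ptV3_cplE_eq p.2 p.1)
  refine congrArg (fun l => List.map (fun w => ((p.1.getD i default, w) : Wd × Wd)) l) ?_
  refine congrArg (fun q => List.filter q (List.drop (i + 1) p.1)) (funext fun w => ?_)
  exact congrArg₂ (fun x y => !(x || y)) (hdd _ _ _) (hdd _ _ _)

/-- ptV: polynomial time -/
theorem r_ptV : S_ptV := by
  intro _ _ _
  refine ⟨ptV3_verW, ptV3_edgW, fun FL => ?_, ptV3_cplE⟩
  unfold initB
  exact PTime.pair ((ptV3_envB FL).comp (ptV3_verW.pair ptV3_edgW))
    (PTime.pair (PTime.const none) (ded_ptime ptV3_verW))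

end Pool.Agent.Lib.MP_87d05f_lc.ND
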