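import Pool.Agent.Lib.MP_87d05f_lc.ND.Stm3

set_option autoImplicit false

/-!
Piece [ND3 ram]: Ramsey's theorem and hereditary properties with arbitrarily large graphs.
-/

namespace Pool.Agent.Lib.MP_87d05f_lc.ND

open Pool.Agent.PolyTime Function Turing

/-- Ramsey's theorem for subsets of the vertex set. -/
theorem ram3_ramsey (s t : ℕ) : ∃ R : ℕ, ∀ (W : Type) (G : SimpleGraph W) (A : Finset W),
    R ≤ A.card →
    (∃ S : Finset W, S ⊆ A ∧ S.card = s ∧ (S : Set W).Pairwise fun x y => ¬ G.Adj x y) ∨
    (∃ S : Finset W, S ⊆ A ∧ S.card = t ∧ (S : Set W).Pairwise fun x y => G.Adj x y) := by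
  classical
  induction s generalizing t with
  | zero => exact ⟨0, fun W G A _ => Or.inl ⟨∅, by simp, by simp, by simp⟩⟩
  | succ s ihs =>
    induction t with
    | zero => exact ⟨0, fun W G A _ => Or.inr ⟨∅, by simp, by simp, by simp⟩⟩
    | succ t iht =>
      obtain ⟨R₁, h₁⟩ := ihs (t + 1)
      obtain ⟨R₂, h₂⟩ := iht
      refine ⟨R₁ + R₂ + 1, fun W G A hA => ?_⟩
      obtain ⟨v, hv⟩ : A.Nonempty := Finset.card_pos.1 (by omega)
      have hcard : ((A.erase v).filter fun w => G.Adj v w).card +
          ((A.erase v).filter fun w => ¬ G.Adj v w).card = (A.erase v).card :=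
        Finset.card_filter_add_card_filter_not _
      rw [Finset.card_erase_of_mem hv] at hcard
      by_cases hB : R₁ ≤ ((A.erase v).filter fun w => ¬ G.Adj v w).card
      · rcases h₁ W G _ hB with ⟨S, hS, hc, hp⟩ | ⟨S, hS, hc, hp⟩
        · left
          have hvS : v ∉ S := fun h => by
            have := hS h
            simp at this
          refine ⟨insert v S, Finset.insert_subset hv (hS.trans ((Finset.filter_subset _ _).trans (Finset.erase_subset _ _))), ?_, ?_⟩
          · rw [Finset.card_insert_of_notMem hvS, hc]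
          · rw [Finset.coe_insert]
            refine Set.pairwise_insert.2 ⟨hp, fun w hw _ => ?_⟩
            have := hS hw
            rw [Finset.mem_filter] at this
            exact ⟨this.2, fun h => this.2 h.symm⟩
        · exact Or.inr ⟨S, hS.trans ((Finset.filter_subset _ _).trans (Finset.erase_subset _ _)), hc, hp⟩
      · have hC : R₂ ≤ ((A.erase v).filter fun w => G.Adj v w).card := by omega
        rcases h₂ W G _ hC with ⟨S, hS, hc, hp⟩ | ⟨S, hS, hc, hp⟩
        · exact Or.inl ⟨S, hS.trans ((Finset.filter_subset _ _).trans (Finset.erase_subset _ _)), hc, hp⟩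
        · right
          have hvS : v ∉ S := fun h => by
            have := hS h
            simp at this
          refine ⟨insert v S, Finset.insert_subset hv (hS.trans ((Finset.filter_subset _ _).trans (Finset.erase_subset _ _))), ?_, ?_⟩
          · rw [Finset.card_insert_of_notMem hvS, hc]
          · rw [Finset.coe_insert]
            refine Set.pairwise_insert.2 ⟨hp, fun w hw _ => ?_⟩
            have := hS hw
            rw [Finset.mem_filter] at this
            exact ⟨this.2, this.2.symm⟩

theorem r_ram : S_ram := by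
  intro FF hFF
  by_contra hcon
  push Not at hcon
  obtain ⟨⟨H, hH, hbot⟩, ⟨K, hK, htop⟩⟩ := hcon
  obtain ⟨R, hR⟩ := ram3_ramsey H.1 K.1
  obtain ⟨G, hG, hfree⟩ := hFF R
  rcases hR (Fin G.1) G.2 Finset.univ (by simpa using hG) with ⟨S, -, hc, hp⟩ | ⟨S, -, hc, hp⟩
  · let e := (S.equivFinOfCardEq hc).symm
    refine (hfree H hH).false ⟨⟨fun i => (e i : Fin G.1), fun i j hij => e.injective
      (Subtype.ext hij)⟩, fun {i j} => ?_⟩
    rw [hbot]
    constructor
    · intro h
      have hne : (e i : Fin G.1) ≠ e j := h.ne
      exact absurd h (hp (e i).2 (e j).2 hne)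
    · intro h
      exact absurd h (by simp)
  · let e := (S.equivFinOfCardEq hc).symm
    refine (hfree K hK).false ⟨⟨fun i => (e i : Fin G.1), fun i j hij => e.injective
      (Subtype.ext hij)⟩, fun {i j} => ?_⟩
    rw [htop]
    constructor
    · intro h
      rw [SimpleGraph.top_adj]
      rintro rfl
      exact h.ne rfl
    · intro h
      rw [SimpleGraph.top_adj] at h
      exact hp (e i).2 (e j).2 fun h' => h (e.injective (Subtype.ext h'))

end Pool.Agent.Lib.MP_87d05f_lc.ND
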