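import Pool.Agent.Lib.MP_87d05f_lc.ND.Stm4

set_option autoImplicit false

/-!
Project ND: from the search machine on all graphs to a separator.
-/

namespace Pool.Agent.Lib.MP_87d05f_lc.ND

open Pool.Agent.PolyTime Function Turing

/-- the answer computed from a solution -/
def sepD3_out (p q : ℕ) (z : List Bool × List Bool) : List Bool :=
  [decide (q * (z.2.filter (fun b => b)).length ≤ (q + p) * thI z.1)]

theorem sepD3_out_ptime (p q : ℕ) : PTime (sepD3_out p q) := by
  have hn : PTime (fun z : List Bool × List Bool => (z.2.filter (fun b => b)).length) :=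
    PTime.length (PTime.filter (p := fun (_ : List Bool × List Bool) (b : Bool) => b)
      PTime.snd PTime.snd)
  have ht : PTime (fun z : List Bool × List Bool => thI z.1) := thI_ptime.comp PTime.fst
  unfold sepD3_out
  exact PTime.cons (PTime.nat_le (PTime.mul (PTime.const q) hn)
    (PTime.mul (PTime.const (q + p)) ht)) (PTime.const [])

theorem sepD3_filter (V : List ℕ) (a : ℕ → Bool) :
    ((V.map a).filter (fun b => b)).length = (V.filter a).length := by
  rw [List.filter_map, List.length_map]
  rfl

theorem r_sepD : S_sepD := by
  intro FF p q b hq hb hs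
  refine sep_of_find ?_
  have hf : PTime (fun x => encW (parseW x).tail) := encW_ptime (PTime.tail parseW_ptime)
  have hh : PTime (fun x => mydiv ((parseW x).tail.headD []).length b) :=
    mydiv_ptime (PTime.length (PTime.headD (PTime.tail parseW_ptime) (PTime.const [])))
      (PTime.const b)
  have hx : ∀ (t : ℕ) (V : List ℕ) (E : List (ℕ × ℕ)),
      parseW (enT (t, (V, E))) = [List.replicate t true] :: V.map Nat.bits ::
        E.map (fun e => [Nat.bits e.1, Nat.bits e.2]) := by
    intro t V E
    unfold enT
    rw [parseW_encW]
  have hlen : ∀ (t : ℕ) (V : List ℕ) (E : List (ℕ × ℕ)), V.length ≤ (enT (t, (V, E))).length := by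
    intro t V E
    unfold enT
    refine le_trans ?_ (encW_length _)
    rw [List.map_cons, List.sum_cons, List.map_cons, List.sum_cons]
    rw [List.length_map]
    dsimp only
    omega
  refine find_transfer (R := 1) hf hh (sepD3_out_ptime p q) ?_ ?_ hs
  · rintro ⟨t, V, E⟩ _
    exact hlen t V E
  · rintro ⟨t, V, E⟩ hV
    refine ⟨(V, E), hV, ?_, ?_, ?_, ?_⟩
    · rw [hx, List.tail_cons]
      rfl
    · rintro w ⟨a, rfl, hsol, ha⟩
      have hth : thI (enT (t, (V, E))) = t := by
        unfold thI
        rw [hx]
        simp
      constructor
      · rw [List.length_map, Nat.one_mul]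
        exact hlen t V E
      · unfold sepD3_out
        simp only
        rw [sepD3_filter, hth]
        have hq' : (0 : ℚ) < ((q : ℕ) : ℚ) := by exact_mod_cast hq
        have hmul : ∀ x : ℚ, ((q : ℕ) : ℚ) * ((1 + (p : ℚ) / ((q : ℕ) : ℚ)) * x) =
            (((q : ℕ) : ℚ) + (p : ℚ)) * x := by
          intro x
          field_simp
        constructor
        · rintro ⟨a', hsol', ha'⟩
          simp only at hsol' ha' ha
          have h1 := ha a' hsol'
          have h3 := mul_le_mul_of_nonneg_left h1 hq'.le
          rw [hmul] at h3
          have h4 : (((V.filter a').length : ℕ) : ℚ) ≤ (t : ℚ) := by exact_mod_cast ha'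
          have h5 : (0 : ℚ) ≤ ((q : ℕ) : ℚ) + (p : ℚ) := by positivity
          have h6 := mul_le_mul_of_nonneg_left h4 h5
          have h9 : q * (V.filter a).length ≤ (q + p) * t := by
            exact_mod_cast h3.trans h6
          rw [decide_eq_true h9]
        · intro hN
          have h1 := hN a hsol
          simp only at h1
          have h3 := mul_lt_mul_of_pos_left h1 hq'
          rw [hmul] at h3
          have h9 : (q + p) * t < q * (V.filter a).length := by
            exact_mod_cast h3
          rw [decide_eq_false (by omega)]
    · rw [hx, List.tail_cons, List.headD_cons, List.length_map, mydiv_eq hb]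
    · rw [hx, List.tail_cons, List.headD_cons, List.length_map, mydiv_eq hb]

end Pool.Agent.Lib.MP_87d05f_lc.ND
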