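import Pool.Agent.Lib.MP_87d05f_lc.ND.Stm4

set_option autoImplicit false

/-!
# Piece sepC: separators on graphs with a list of vertices give separators on edge lists
-/

namespace Pool.Agent.Lib.MP_87d05f_lc.ND

open Pool.Agent.PolyTime Function Turing

theorem sepC3_ded_map {S T : Type} [DecidableEq S] [DecidableEq T] {g : S → T}
    (hg : Injective g) (l : List S) : ded (l.map g) = (ded l).map g := by
  induction l with
  | nil => rfl
  | cons a l ih =>
    have e1 : ded ((a :: l).map g) =
        bif decide (g a ∈ ded (l.map g)) then ded (l.map g) else g a :: ded (l.map g) := rfl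
    have e2 : ded (a :: l) = bif decide (a ∈ ded l) then ded l else a :: ded l := rfl
    rw [e1, e2, ih]
    have h : (g a ∈ (ded l).map g) ↔ a ∈ ded l := List.mem_map_of_injective hg
    by_cases h' : a ∈ ded l
    · rw [decide_eq_true h', decide_eq_true (h.2 h')]
      rfl
    · rw [decide_eq_false h', decide_eq_false (fun h'' => h' (h.1 h''))]
      rfl

theorem sepC3_ends_map {S T : Type} (g : S → T) (E : List (S × S)) :
    ends (E.map (Prod.map g g)) = (ends E).map g := by
  unfold ends
  induction E with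
  | nil => rfl
  | cons e E ih =>
    rw [List.map_cons, List.flatMap_cons, List.flatMap_cons, List.map_append, ih]
    rfl

theorem sepC3_cplE_map {S T : Type} [DecidableEq S] [DecidableEq T] {g : S → T}
    (hg : Injective g) (V : List S) (E : List (S × S)) :
    cplE (V.map g) (E.map (Prod.map g g)) = (cplE V E).map (Prod.map g g) := by
  have hm : ∀ u v : S, (g u, g v) ∈ E.map (Prod.map g g) ↔ (u, v) ∈ E := by
    intro u v
    rw [List.mem_map]
    constructor
    · rintro ⟨⟨a, b⟩, h, e⟩
      rw [Prod.map_apply, Prod.mk.injEq] at e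
      obtain ⟨e1, e2⟩ := e
      rw [← hg e1, ← hg e2]
      exact h
    · intro h
      exact ⟨(u, v), h, rfl⟩
  induction V with
  | nil => rfl
  | cons v V ih =>
    have e1 : cplE ((v :: V).map g) (E.map (Prod.map g g)) =
        (((V.map g).filter (fun w => !(decide ((g v, w) ∈ E.map (Prod.map g g)) ||
          decide ((w, g v) ∈ E.map (Prod.map g g))))).map (fun w => (g v, w))) ++
          cplE (V.map g) (E.map (Prod.map g g)) := rfl
    have e2 : cplE (v :: V) E =
        ((V.filter (fun w => !(decide ((v, w) ∈ E) || decide ((w, v) ∈ E)))).map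
          (fun w => (v, w))) ++ cplE V E := rfl
    rw [e1, e2, ih, List.map_append, List.map_map, List.filter_map, List.map_map]
    have e3 : ((fun w => !(decide ((g v, w) ∈ E.map (Prod.map g g)) ||
          decide ((w, g v) ∈ E.map (Prod.map g g)))) ∘ g) =
        (fun w => !(decide ((v, w) ∈ E) || decide ((w, v) ∈ E))) := by
      funext w
      have h1 : decide ((g v, g w) ∈ E.map (Prod.map g g)) = decide ((v, w) ∈ E) :=
        decide_eq_decide.2 (hm v w)
      have h2 : decide ((g w, g v) ∈ E.map (Prod.map g g)) = decide ((w, v) ∈ E) :=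
        decide_eq_decide.2 (hm w v)
      rw [comp_apply, h1, h2]
    rw [e3]
    rfl

/-- the edges of the graph or of its complement -/
def sepC3_E {T : Type} [DecidableEq T] (c : Bool) (V : List T) (E : List (T × T)) :
    List (T × T) :=
  if c = true then cplE V E else E

/-- the map on inputs -/
def sepC3_f (c : Bool) (x : List Bool) : List Bool :=
  encW ((parseW x).headD [] :: ded (ends (edgW x)) ::
    (sepC3_E c (ded (ends (edgW x))) (edgW x)).map (fun e => [e.1, e.2]))

theorem sepC3_parse (t : ℕ) (E : List (ℕ × ℕ)) :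
    parseW (enCut (t, E)) = [List.replicate t true] :: E.map wordE := by
  unfold enCut
  rw [parseW_encW]

theorem sepC3_edgW (t : ℕ) (E : List (ℕ × ℕ)) :
    edgW (enCut (t, E)) = E.map (Prod.map Nat.bits Nat.bits) := by
  unfold edgW
  rw [sepC3_parse, List.tail_cons, List.map_map]
  rfl

theorem sepC3_E_map (c : Bool) (V : List ℕ) (E : List (ℕ × ℕ)) :
    sepC3_E c (V.map Nat.bits) (E.map (Prod.map Nat.bits Nat.bits)) =
      (sepC3_E c V E).map (Prod.map Nat.bits Nat.bits) := by
  unfold sepC3_E
  cases c with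
  | false => rfl
  | true => exact sepC3_cplE_map bits_injective V E

theorem sepC3_enT (c : Bool) (t : ℕ) (E : List (ℕ × ℕ)) :
    enT (t, (ded (ends E), sepC3_E c (ded (ends E)) E)) = sepC3_f c (enCut (t, E)) := by
  unfold sepC3_f enT
  rw [sepC3_edgW, sepC3_ends_map, sepC3_ded_map bits_injective, sepC3_E_map, sepC3_parse,
    List.headD_cons, List.map_map]
  rfl

theorem sepC3_dsz (E : List (ℕ × ℕ)) (a : ℕ → Bool) :
    ((ded (ends E)).filter a).length = dsz E a := by
  rw [← List.toFinset_card_of_nodup ((nodup_ded _).filter _)]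
  unfold dsz
  congr 1
  ext v
  rw [List.mem_toFinset, List.mem_filter, mem_ded, Finset.mem_filter, List.mem_toFinset]

theorem sepC3_sol (FF : Set FG) (E : List (ℕ × ℕ)) (a : ℕ → Bool) :
    SolV FF (ded (ends E)) E a ↔ Sol FF E a := by
  unfold SolV Sol HasV Has
  simp only [mem_ded]

theorem sepC3_ptE (c : Bool) (hc : PTime (fun p : List Wd × List (Wd × Wd) => cplE p.1 p.2)) :
    PTime (fun p : List Wd × List (Wd × Wd) => sepC3_E c p.1 p.2) := by
  cases c with
  | false => exact PTime.snd
  | true => exact hc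

theorem sepC3_f_ptime (c : Bool) (he : PTime edgW)
    (hc : PTime (fun p : List Wd × List (Wd × Wd) => cplE p.1 p.2)) : PTime (sepC3_f c) := by
  have hends : PTime (fun x : List Bool => ends (edgW x)) := by
    unfold ends
    exact PTime.flatMap (f := fun (_ : List Bool) (e : Wd × Wd) => [e.1, e.2]) he
      (PTime.cons (PTime.fst.comp PTime.snd) (PTime.cons (PTime.snd.comp PTime.snd)
        (PTime.const [])))
  have hV : PTime (fun x : List Bool => ded (ends (edgW x))) := ded_ptime hends
  have hE : PTime (fun x : List Bool => sepC3_E c (ded (ends (edgW x))) (edgW x)) :=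
    (sepC3_ptE c hc).comp (hV.pair he)
  have hM : PTime (fun x : List Bool =>
      (sepC3_E c (ded (ends (edgW x))) (edgW x)).map (fun e => [e.1, e.2])) :=
    PTime.map (f := fun (_ : List Bool) (e : Wd × Wd) => [e.1, e.2]) hE
      (PTime.cons (PTime.fst.comp PTime.snd) (PTime.cons (PTime.snd.comp PTime.snd)
        (PTime.const [])))
  unfold sepC3_f
  exact encW_ptime (PTime.cons (PTime.headD parseW_ptime (PTime.const [])) (PTime.cons hV hM))

theorem sepC3_len (t : ℕ) (E : List (ℕ × ℕ)) : 2 * E.length ≤ (enCut (t, E)).length := by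
  unfold enCut
  refine le_trans ?_ (encW_length _)
  have h1 : ∀ E : List (ℕ × ℕ), ((E.map wordE).map List.length).sum = 2 * E.length := by
    intro E
    induction E with
    | nil => rfl
    | cons e E ih =>
      rw [List.map_cons, List.map_cons, List.sum_cons, ih]
      unfold wordE
      simp only [List.length_cons, List.length_nil]
      omega
  rw [List.map_cons, List.sum_cons, h1]
  dsimp only
  omega

theorem sepC3_nv (t : ℕ) (E : List (ℕ × ℕ)) : nvCut (t, E) = (ded (ends E)).length := by
  rw [ded_length]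
  rfl

theorem sepC3_gen (c : Bool) {FF GG : Set FG} {D : ℕ} {ε : ℚ} {b : ℕ} (hb : 0 < b)
    {V₂ : ℕ × (List ℕ × List (ℕ × ℕ)) → Prop} (he : PTime edgW)
    (hc : PTime (fun p : List Wd × List (Wd × Wd) => cplE p.1 p.2))
    (hV : ∀ t E, VDel D (t, E) → V₂ (t, (ded (ends E), sepC3_E c (ded (ends E)) E)))
    (hS : ∀ t E, VDel D (t, E) → ∀ a : ℕ → Bool,
      (SolV FF (ded (ends E)) (sepC3_E c (ded (ends E)) E) a ↔ Sol GG E a))
    (hsep : GSep enT V₂ (YV FF) (NV FF ε) (fun I => I.2.1.length) b) :
    GSep enCut (VDel D) (YDel GG) (NDel GG ε) nvCut b := by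
  have hends : PTime (fun x : List Bool => ends (edgW x)) := by
    unfold ends
    exact PTime.flatMap (f := fun (_ : List Bool) (e : Wd × Wd) => [e.1, e.2]) he
      (PTime.cons (PTime.fst.comp PTime.snd) (PTime.cons (PTime.snd.comp PTime.snd)
        (PTime.const [])))
  have hh : PTime (fun x : List Bool => mydiv (ded (ends (edgW x))).length b) :=
    mydiv_ptime (PTime.length (ded_ptime hends)) (PTime.const b)
  have hval : ∀ (t : ℕ) (E : List (ℕ × ℕ)),
      mydiv (ded (ends (edgW (enCut (t, E))))).length b = (ded (ends E)).length / b := by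
    intro t E
    rw [sepC3_edgW, sepC3_ends_map, sepC3_ded_map bits_injective, List.length_map, mydiv_eq hb]
  refine transfer (sepC3_f_ptime c he hc) hh ?_ ?_ hsep
  · rintro ⟨t, E⟩ _
    refine le_trans ?_ (sepC3_len t E)
    unfold nvCut
    refine (List.toFinset_card_le _).trans ?_
    rw [length_ends]
  · rintro ⟨t, E⟩ hE
    refine ⟨(t, (ded (ends E), sepC3_E c (ded (ends E)) E)), hV t E hE, sepC3_enT c t E,
      ?_, ?_, ?_, ?_⟩
    · rintro ⟨a, ha, hle⟩
      refine ⟨a, (hS t E hE a).2 ha, ?_⟩
      dsimp only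
      rw [sepC3_dsz]
      exact hle
    · intro hN a ha
      dsimp only
      rw [sepC3_dsz]
      exact hN a ((hS t E hE a).1 ha)
    · rw [hval]
    · rw [hval, sepC3_nv]

theorem r_sepC : S_sepC := by
  intro hcpl hpt FF D ε b hb
  obtain ⟨-, he, -, hc⟩ := hpt
  constructor
  · intro hsep
    refine sepC3_gen false hb he hc ?_ ?_ hsep
    · rintro t E ⟨h1, h2, h3⟩
      refine ⟨⟨nodup_ded _, ?_, h2⟩, h3⟩
      intro e hm
      refine ⟨h1 e hm, ?_, ?_⟩
      · exact mem_ded.2 (List.mem_flatMap.2 ⟨e, hm, by simp⟩)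
      · exact mem_ded.2 (List.mem_flatMap.2 ⟨e, hm, by simp⟩)
    · intro t E _ a
      exact sepC3_sol FF E a
  · intro hsep
    refine sepC3_gen true hb he hc ?_ ?_ hsep
    · rintro t E _
      obtain ⟨c1, c2, -, -⟩ := hcpl ℕ (ded (ends E)) E (nodup_ded _)
      exact ⟨nodup_ded _, c1, c2⟩
    · rintro t E ⟨h1, -, -⟩ a
      obtain ⟨-, -, -, c4⟩ := hcpl ℕ (ded (ends E)) E (nodup_ded _)
      have h5 := c4 FF a h1
      exact h5.trans (sepC3_sol (cFF FF) E a)

end Pool.Agent.Lib.MP_87d05f_lc.ND
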